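import Pool.Agent.Helper52.KP.StG

/-!
# Project KP (MP_26be5b_ag), module TAN: derivatives of holomorphic maps to the orbit are tangent
-/

set_option autoImplicit false

namespace Pool.Agent.Helper31.KP

open Pool.Agent.Helper52.KP Pool.Agent.Helper67.NO Filter
open scoped Topology

universe u

/-- the derivative of a map to the orbit in terms of the lift to an exponential chart -/
theorem tan_aux (hORB : StORB.{u}) (g : Type u) [LieRing g] [LieAlgebra ℂ g]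
    [FiniteDimensional ℂ g] [LieAlgebra.IsSemisimple ℂ g] {p k : ℕ} {V' : Set (Fin p → ℂ)}
    (hV' : IsOpen V') {Ψ : (Fin p → ℂ) → g} {ξ : (Fin p → ℂ) → (Fin k → ℂ)} {X : Fin k → g}
    {z₀ : Fin p → ℂ} (hz₀ : z₀ ∈ V') (hξ : DifferentiableOn ℂ ξ V') (hξ0 : ξ z₀ = 0)
    (hΨ : ∀ z ∈ V', Ψ z = chart (Ψ z₀) X (ξ z)) (v : Fin p → ℂ) :
    fderiv ℂ (fun z => co (Ψ z)) z₀ v = co ⁅∑ j, (fderiv ℂ ξ z₀ v) j • X j, Ψ z₀⁆ := by
  obtain ⟨-, -, -, h4, -⟩ := hORB g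
  obtain ⟨hhol, -, hder⟩ := h4 k (Ψ z₀) X
  have hev : (fun z => co (Ψ z)) =ᶠ[𝓝 z₀] (fun w => co (chart (Ψ z₀) X w)) ∘ ξ := by
    filter_upwards [hV'.mem_nhds hz₀] with z hz
    simp only [Function.comp_apply]
    rw [hΨ z hz]
  have hd1 : DifferentiableAt ℂ (fun w => co (chart (Ψ z₀) X w)) (ξ z₀) :=
    (differentiableOn_univ.1 hhol) _
  have hd2 : DifferentiableAt ℂ ξ z₀ := hξ.differentiableAt (hV'.mem_nhds hz₀)
  rw [hev.fderiv_eq, fderiv_comp z₀ hd1 hd2, hξ0]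
  exact hder _

/-- Module TAN. -/
theorem hTAN (hLFT : StLFT.{u}) (hORB : StORB.{u}) : StTAN.{u} := by
  intro g _ _ _ _ x₀ hx₀ hn p V hV Ψ hΨ horb z hz
  obtain ⟨-, -, -, -, -, h6, -⟩ := hORB g
  obtain ⟨X, hX⟩ := h6 (Ψ z)
  obtain ⟨V', ξ, hV', hzV', -, hξ, hξ0, hΨ'⟩ := hLFT g x₀ hx₀ hn p V hV Ψ hΨ horb z hz _ X hX
  refine ⟨fun i => ∑ j, (fderiv ℂ ξ z (Pi.single i 1)) j • X j, fun i => ?_⟩
  exact (tan_aux hORB g hV' hzV' hξ hξ0 hΨ' (Pi.single i 1)).symm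

end Pool.Agent.Helper31.KP
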