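import Mathlib

/-!
# Holomorphic functions of several variables on an open set are smooth
-/

set_option autoImplicit false

namespace Pool.Agent.Helper31.KP.Hol

open Filter Topology Metric MeasureTheory
open scoped ContDiff

section

variable {V : Type*} [NormedAddCommGroup V] [NormedSpace ℂ V]

private theorem line {f : V → ℂ} {U : Set V} (hU : IsOpen U) (hf : DifferentiableOn ℂ f U)
    (z b : V) (s : ℂ) (hs : z + s • b ∈ U) :
    HasDerivAt (fun s : ℂ => f (z + s • b)) (fderiv ℂ f (z + s • b) b) s := by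
  have h : HasDerivAt (fun s : ℂ => z + s • b) b s := by
    simpa using ((hasDerivAt_id s).smul_const b).const_add z
  exact ((hf.differentiableAt (hU.mem_nhds hs)).hasFDerivAt).comp_hasDerivAt s h

/-- Cauchy's formula for a directional derivative -/
private theorem cauchy {f : V → ℂ} {U : Set V} (hU : IsOpen U) (hf : DifferentiableOn ℂ f U)
    {z b : V} {ρ : ℝ} (hρ : 0 < ρ) (hz : ∀ s : ℂ, ‖s‖ ≤ ρ → z + s • b ∈ U) :
    fderiv ℂ f z b = (2 * Real.pi * Complex.I : ℂ)⁻¹ *
      ∮ s in C((0 : ℂ), ρ), (s ^ 2)⁻¹ • f (z + s • b) := by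
  have h0 : deriv (fun s : ℂ => f (z + s • b)) 0 = fderiv ℂ f z b := by
    rw [(line hU hf z b 0 (hz 0 (by simpa using hρ.le))).deriv, zero_smul, add_zero]
  rw [← h0]
  have hO : IsOpen {s : ℂ | z + s • b ∈ U} := hU.preimage (by fun_prop)
  have h1 := Complex.two_pi_I_inv_smul_circleIntegral_sub_sq_inv_smul_of_differentiable
    (f := fun s : ℂ => f (z + s • b)) (U := {s : ℂ | z + s • b ∈ U}) hO (c := 0) (w₀ := 0)
    (R := ρ) (fun s hs => hz s (by simpa using hs))
    (fun s hs => (line hU hf z b s hs).differentiableAt.differentiableWithinAt) (by simpa using hρ)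
  rw [← h1]
  simp

/-- local bound of the derivative -/
private theorem bound [FiniteDimensional ℂ V] {f : V → ℂ} {U : Set V} (hU : IsOpen U)
    (hf : DifferentiableOn ℂ f U) {z₀ : V} {r : ℝ} (hr : 0 < r) (hb : closedBall z₀ (3 * r) ⊆ U) :
    ∃ C : ℝ, 0 ≤ C ∧ ∀ z ∈ closedBall z₀ (2 * r), ‖fderiv ℂ f z‖ ≤ C := by
  have : ProperSpace V := FiniteDimensional.proper ℂ V
  obtain ⟨M, hM⟩ := (isCompact_closedBall z₀ (3 * r)).exists_bound_of_continuousOn
    (hf.continuousOn.mono hb)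
  refine ⟨max M 0 / r, by positivity, fun z hz => ?_⟩
  refine ContinuousLinearMap.opNorm_le_bound _ (by positivity) fun b => ?_
  rcases eq_or_ne b 0 with rfl | hb0
  · simp
  have hb' : 0 < ‖b‖ := norm_pos_iff.2 hb0
  have hin : ∀ s : ℂ, ‖s‖ ≤ r / ‖b‖ → z + s • b ∈ closedBall z₀ (3 * r) := by
    intro s hs
    rw [mem_closedBall, dist_eq_norm] at hz ⊢
    have h1 : ‖s • b‖ ≤ r := by
      rw [norm_smul]
      calc ‖s‖ * ‖b‖ ≤ r / ‖b‖ * ‖b‖ := mul_le_mul_of_nonneg_right hs hb'.le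
        _ = r := div_mul_cancel₀ _ hb'.ne'
    calc ‖z + s • b - z₀‖ = ‖(z - z₀) + s • b‖ := by congr 1; abel
      _ ≤ ‖z - z₀‖ + ‖s • b‖ := norm_add_le _ _
      _ ≤ 3 * r := by linarith
  have h0 : deriv (fun s : ℂ => f (z + s • b)) 0 = fderiv ℂ f z b := by
    rw [(line hU hf z b 0 (hb (hin 0 (by simpa using by positivity)))).deriv, zero_smul, add_zero]
  have hO : IsOpen {s : ℂ | z + s • b ∈ U} := hU.preimage (by fun_prop)
  have hd : DifferentiableOn ℂ (fun s : ℂ => f (z + s • b)) (closedBall 0 (r / ‖b‖)) := fun s hs =>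
    (line hU hf z b s (hb (hin s (by simpa using hs)))).differentiableAt.differentiableWithinAt
  have h1 := Complex.norm_deriv_le_of_forall_mem_sphere_norm_le (c := 0) (R := r / ‖b‖)
    (C := max M 0) (f := fun s : ℂ => f (z + s • b)) (by positivity)
    ((hd.mono (by rw [closure_ball _ (by positivity)])).diffContOnCl)
    (fun s hs => (hM _ (hin s (by simpa using (mem_sphere_zero_iff_norm.1 hs).le))).trans
      (le_max_left _ _))
  rw [h0] at h1
  calc ‖fderiv ℂ f z b‖ ≤ max M 0 / (r / ‖b‖) := h1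
    _ = max M 0 / r * ‖b‖ := by field_simp

/-- Directional derivatives of holomorphic functions are holomorphic. -/
theorem differentiableOn_fderiv_apply [FiniteDimensional ℂ V] {f : V → ℂ} {U : Set V}
    (hU : IsOpen U) (hf : DifferentiableOn ℂ f U) (b : V) :
    DifferentiableOn ℂ (fun z => fderiv ℂ f z b) U := by
  have hprop : ProperSpace V := FiniteDimensional.proper ℂ V
  have hsc : SecondCountableTopology V := secondCountable_of_proper
  borelize V
  intro z₀ hz₀
  obtain ⟨r₀, hr₀, hb₀⟩ := Metric.isOpen_iff.1 hU z₀ hz₀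
  obtain ⟨r, hr, hb⟩ : ∃ r : ℝ, 0 < r ∧ closedBall z₀ (3 * r) ⊆ U :=
    ⟨r₀ / 4, by positivity, (closedBall_subset_ball (by linarith)).trans hb₀⟩
  obtain ⟨ρ, hρ, hρb⟩ : ∃ ρ : ℝ, 0 < ρ ∧ ρ * ‖b‖ ≤ r := by
    refine ⟨r / (1 + ‖b‖), by positivity, ?_⟩
    rw [div_mul_eq_mul_div, div_le_iff₀ (by positivity)]
    nlinarith [norm_nonneg b]
  have hin : ∀ z ∈ ball z₀ r, ∀ s : ℂ, ‖s‖ ≤ ρ → z + s • b ∈ closedBall z₀ (2 * r) := by
    intro z hz s hs
    rw [mem_ball, dist_eq_norm] at hz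
    rw [mem_closedBall, dist_eq_norm]
    have h1 : ‖s • b‖ ≤ r := by
      rw [norm_smul]
      exact (mul_le_mul_of_nonneg_right hs (norm_nonneg _)).trans hρb
    calc ‖z + s • b - z₀‖ = ‖(z - z₀) + s • b‖ := by congr 1; abel
      _ ≤ ‖z - z₀‖ + ‖s • b‖ := norm_add_le _ _
      _ ≤ 2 * r := by linarith
  have h23 : closedBall z₀ (2 * r) ⊆ U :=
    (closedBall_subset_closedBall (by linarith)).trans hb
  have hcm : ∀ θ : ℝ, ‖circleMap 0 ρ θ‖ = ρ := by
    intro θ
    simp [abs_of_pos hρ]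
  obtain ⟨C, hC0, hCb⟩ := bound hU hf hr hb
  have hfun : (fun z => fderiv ℂ f z b) =ᶠ[𝓝 z₀] fun z => (2 * Real.pi * Complex.I : ℂ)⁻¹ *
      ∮ s in C((0 : ℂ), ρ), (s ^ 2)⁻¹ • f (z + s • b) := by
    filter_upwards [ball_mem_nhds z₀ hr] with z hz
    exact cauchy hU hf hρ fun s hs => h23 (hin z hz s hs)
  refine DifferentiableAt.differentiableWithinAt ?_
  refine (DifferentiableAt.const_mul ?_ _).congr_of_eventuallyEq hfun
  have c1 : Continuous fun θ : ℝ => deriv (circleMap (0 : ℂ) ρ) θ := by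
    simp only [deriv_circleMap]
    fun_prop
  have c2 : Continuous fun θ : ℝ => ((circleMap (0 : ℂ) ρ θ) ^ 2)⁻¹ :=
    Continuous.inv₀ (by fun_prop) fun θ => by
      apply pow_ne_zero
      rw [← norm_ne_zero_iff, hcm]
      exact hρ.ne'
  have c3 : ∀ z ∈ ball z₀ r, Continuous fun θ : ℝ => f (z + (circleMap (0 : ℂ) ρ θ) • b) := by
    intro z hz
    rw [continuous_iff_continuousAt]
    intro θ
    have hmem : z + (circleMap (0 : ℂ) ρ θ) • b ∈ U := h23 (hin z hz _ (hcm θ).le)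
    have h1 : ContinuousAt f (z + (circleMap (0 : ℂ) ρ θ) • b) :=
      (hf.differentiableAt (hU.mem_nhds hmem)).continuousAt
    exact ContinuousAt.comp (f := fun θ : ℝ => z + (circleMap (0 : ℂ) ρ θ) • b) h1
      (by fun_prop)
  unfold circleIntegral
  have key := intervalIntegral.hasFDerivAt_integral_of_dominated_of_fderiv_le
    (μ := volume) (a := 0) (b := 2 * Real.pi) (𝕜 := ℂ)
    (F := fun (z : V) (θ : ℝ) => deriv (circleMap 0 ρ) θ •
      (fun s : ℂ => (s ^ 2)⁻¹ • f (z + s • b)) (circleMap 0 ρ θ))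
    (F' := fun (z : V) (θ : ℝ) => (deriv (circleMap 0 ρ) θ * ((circleMap 0 ρ θ) ^ 2)⁻¹) •
      fderiv ℂ f (z + (circleMap 0 ρ θ) • b))
    (x₀ := z₀) (s := ball z₀ r) (bound := fun _ => ρ * (ρ ^ 2)⁻¹ * C)
    (ball_mem_nhds z₀ hr) ?_ ?_ ?_ ?_ ?_ ?_
  · exact key.differentiableAt
  · filter_upwards [ball_mem_nhds z₀ hr] with z hz
    exact (c1.smul (c2.smul (c3 z hz))).aestronglyMeasurable
  · exact (c1.smul (c2.smul (c3 z₀ (mem_ball_self hr)))).intervalIntegrable _ _
  · refine AEStronglyMeasurable.smul (c1.mul c2).aestronglyMeasurable ?_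
    have h2 : Measurable fun θ : ℝ => fderiv ℂ f (z₀ + (circleMap (0 : ℂ) ρ θ) • b) := by
      refine (measurable_fderiv ℂ f).comp ?_
      exact Continuous.measurable (by fun_prop)
    exact h2.aestronglyMeasurable
  · refine Eventually.of_forall fun θ _ z hz => ?_
    rw [norm_smul, norm_mul, norm_inv, norm_pow, hcm, deriv_circleMap, norm_mul, hcm]
    simp only [Complex.norm_I, mul_one]
    refine mul_le_mul_of_nonneg_left ?_ (by positivity)
    exact hCb _ (hin z hz _ (hcm θ).le)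
  · exact intervalIntegrable_const
  · refine Eventually.of_forall fun θ _ z hz => ?_
    have hmem : z + (circleMap (0 : ℂ) ρ θ) • b ∈ U := h23 (hin z hz _ (hcm θ).le)
    have h1 : HasFDerivAt (fun z : V => z + circleMap 0 ρ θ • b) (ContinuousLinearMap.id ℂ V) z :=
      (hasFDerivAt_id z).add_const _
    have h2 := ((hf.differentiableAt (hU.mem_nhds hmem)).hasFDerivAt.comp z h1)
    rw [ContinuousLinearMap.comp_id] at h2
    have h3 := h2.const_smul (deriv (circleMap 0 ρ) θ * ((circleMap 0 ρ θ) ^ 2)⁻¹)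
    refine h3.congr_of_eventuallyEq (Eventually.of_forall fun w => ?_)
    simp [mul_assoc]

/-- Holomorphic functions on an open subset of a finite dimensional space are smooth. -/
theorem contDiffOn_nat [FiniteDimensional ℂ V] {U : Set V} (hU : IsOpen U) (n : ℕ) :
    ∀ {f : V → ℂ}, DifferentiableOn ℂ f U → ContDiffOn ℂ n f U := by
  induction n with
  | zero =>
    intro f hf
    exact contDiffOn_zero.2 hf.continuousOn
  | succ n ih =>
    intro f hf
    rw [Nat.cast_add, Nat.cast_one, contDiffOn_succ_iff_fderiv_of_isOpen hU]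
    refine ⟨hf, by simp, ?_⟩
    rw [contDiffOn_clm_apply]
    intro b
    exact ih (differentiableOn_fderiv_apply hU hf b)

theorem contDiffOn [FiniteDimensional ℂ V] {U : Set V} (hU : IsOpen U) {f : V → ℂ}
    (hf : DifferentiableOn ℂ f U) : ContDiffOn ℂ ∞ f U :=
  contDiffOn_infty.2 fun n => contDiffOn_nat hU n hf

theorem contDiffOn_pi' [FiniteDimensional ℂ V] {U : Set V} (hU : IsOpen U) {ι : Type*} [Fintype ι]
    {f : V → ι → ℂ} (hf : DifferentiableOn ℂ f U) : ContDiffOn ℂ ∞ f U := by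
  rw [contDiffOn_pi]
  intro i
  exact contDiffOn hU (differentiableOn_pi.1 hf i)

theorem contDiffOn_real [FiniteDimensional ℂ V] {U : Set V} (hU : IsOpen U) {f : V → ℂ}
    (hf : DifferentiableOn ℂ f U) : ContDiffOn ℝ ∞ f U := (contDiffOn hU hf).restrict_scalars ℝ

theorem contDiffOn_real_pi [FiniteDimensional ℂ V] {U : Set V} (hU : IsOpen U) {ι : Type*}
    [Fintype ι] {f : V → ι → ℂ} (hf : DifferentiableOn ℂ f U) : ContDiffOn ℝ ∞ f U :=
  (contDiffOn_pi' hU hf).restrict_scalars ℝ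

end

end Pool.Agent.Helper31.KP.Hol
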