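import Pool.Agent.Helper52.KP.StG
import Pool.Agent.Helper98.KP.M_CAL
import Pool.Agent.Helper31.KP.Hol

/-!
# Project KP (MP_26be5b_ag): chain rule for the complex Hessian along holomorphic maps, and positivity
in the convention of the project
-/

set_option autoImplicit false

namespace Pool.Agent.Helper31.KP

open Pool.Agent.Helper52.KP Pool.Agent.Helper67.NO Pool.Agent.Helper98.KP Filter Matrix
open scoped Topology ContDiff ComplexOrder

section positivity

variable {m : ℕ}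

theorem star_form (A : Matrix (Fin m) (Fin m) ℂ) (x : Fin m → ℂ) :
    star x ⬝ᵥ (Aᵀ *ᵥ x) = ∑ j, ∑ k, A j k * x j * star (x k) := by
  simp only [dotProduct, mulVec, Finset.mul_sum, Pi.star_apply, transpose_apply]
  rw [Finset.sum_comm]
  refine Finset.sum_congr rfl fun j _ => Finset.sum_congr rfl fun k _ => ?_
  ring

theorem form_im {A : Matrix (Fin m) (Fin m) ℂ} (hA : A.IsHermitian) (x : Fin m → ℂ) :
    (star x ⬝ᵥ (Aᵀ *ᵥ x)).im = 0 := by
  have h2 := (hA.transpose).im_star_dotProduct_mulVec_self x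
  simpa using h2

theorem psd_iff {A : Matrix (Fin m) (Fin m) ℂ} : Psd A ↔ (Aᵀ).PosSemidef := by
  constructor
  · intro hA
    refine PosSemidef.of_dotProduct_mulVec_nonneg hA.1.transpose fun x => ?_
    rw [Complex.nonneg_iff]
    refine ⟨?_, (form_im hA.1 x).symm⟩
    rw [star_form]
    exact hA.2 x
  · intro hA
    have hH : A.IsHermitian := by
      have := hA.1.transpose
      rwa [transpose_transpose] at this
    refine ⟨hH, fun x => ?_⟩
    have h1 := hA.dotProduct_mulVec_nonneg x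
    rw [Complex.nonneg_iff, star_form] at h1
    exact h1.1

theorem pd_of_posDef {A : Matrix (Fin m) (Fin m) ℂ} (hA : (Aᵀ).PosDef) : Pd A := by
  have hH : A.IsHermitian := by
    have := hA.1.transpose
    rwa [transpose_transpose] at this
  refine ⟨hH, fun x hx => ?_⟩
  have h1 := hA.dotProduct_mulVec_pos hx
  rw [Complex.pos_iff, star_form] at h1
  exact h1.1

theorem pd_of_det {A : Matrix (Fin m) (Fin m) ℂ} (hA : Psd A) (h : A.det ≠ 0) : Pd A := by
  refine pd_of_posDef ?_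
  rw [(psd_iff.1 hA).posDef_iff_det_ne_zero, det_transpose]
  exact h

theorem psd_of_posSemidef {A : Matrix (Fin m) (Fin m) ℂ} (hA : A.PosSemidef) : Psd A :=
  psd_iff.2 hA.transpose

end positivity

section chain

variable {p k : ℕ}

/-- chain rule for a real differentiable function composed with a holomorphic map -/
theorem chain_dz {G : (Fin k → ℂ) → ℂ} {ξ : (Fin p → ℂ) → (Fin k → ℂ)} {z : Fin p → ℂ}
    (hG : DifferentiableAt ℝ G (ξ z)) (hξ : DifferentiableAt ℂ ξ z) (a : Fin p) :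
    dz a (fun z => G (ξ z)) z = ∑ j, dz j G (ξ z) * fderiv ℂ ξ z (Pi.single a 1) j ∧
      db a (fun z => G (ξ z)) z =
        ∑ j, db j G (ξ z) * star (fderiv ℂ ξ z (Pi.single a 1) j) := by
  have hξ' : HasFDerivAt ξ ((fderiv ℂ ξ z).restrictScalars ℝ) z :=
    hξ.hasFDerivAt.restrictScalars ℝ
  have h1 : HasFDerivAt (fun z => G (ξ z))
      ((fderiv ℝ G (ξ z)).comp ((fderiv ℂ ξ z).restrictScalars ℝ)) z :=
    hG.hasFDerivAt.comp z hξ'
  have hI : (Pi.single a Complex.I : Fin p → ℂ) = Complex.I • (Pi.single a (1 : ℂ)) := by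
    rw [← Pi.single_smul, smul_eq_mul, mul_one]
  have hA : ∀ v, fderiv ℝ G (ξ z) v = ∑ i, (dz i G (ξ z) * v i + db i G (ξ z) * star (v i)) := by
    intro v
    exact lin_formula (fderiv ℝ G (ξ z)) v
  have e1 : ((fderiv ℝ G (ξ z)).comp ((fderiv ℂ ξ z).restrictScalars ℝ)) (Pi.single a 1) =
      ∑ j, (dz j G (ξ z) * fderiv ℂ ξ z (Pi.single a 1) j +
        db j G (ξ z) * star (fderiv ℂ ξ z (Pi.single a 1) j)) := hA _
  have e2 : ((fderiv ℝ G (ξ z)).comp ((fderiv ℂ ξ z).restrictScalars ℝ)) (Pi.single a Complex.I) =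
      ∑ j, (dz j G (ξ z) * (Complex.I * fderiv ℂ ξ z (Pi.single a 1) j) +
        db j G (ξ z) * star (Complex.I * fderiv ℂ ξ z (Pi.single a 1) j)) := by
    have : ((fderiv ℂ ξ z).restrictScalars ℝ) (Pi.single a Complex.I) =
        Complex.I • fderiv ℂ ξ z (Pi.single a 1) := by
      rw [hI]
      exact (fderiv ℂ ξ z).map_smul _ _
    rw [ContinuousLinearMap.comp_apply, this, hA]
    rfl
  have hstar : ∀ w : ℂ, star (Complex.I * w) = -(Complex.I * star w) := by
    intro w
    simp [mul_comm]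
  constructor
  · rw [dz_of h1, e1, e2, Finset.mul_sum, ← Finset.sum_sub_distrib, Finset.sum_div]
    refine Finset.sum_congr rfl fun j _ => ?_
    rw [hstar]
    linear_combination (-(dz j G (ξ z) * fderiv ℂ ξ z (Pi.single a 1) j) / 2 +
      db j G (ξ z) * star (fderiv ℂ ξ z (Pi.single a 1) j) / 2) * Complex.I_mul_I
  · rw [db_of h1, e1, e2, Finset.mul_sum, ← Finset.sum_add_distrib, Finset.sum_div]
    refine Finset.sum_congr rfl fun j _ => ?_
    rw [hstar]
    linear_combination (dz j G (ξ z) * fderiv ℂ ξ z (Pi.single a 1) j / 2 -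
      db j G (ξ z) * star (fderiv ℂ ξ z (Pi.single a 1) j) / 2) * Complex.I_mul_I

theorem dz_congr {j : Fin p} {f f' : (Fin p → ℂ) → ℂ} {z : Fin p → ℂ} (h : f =ᶠ[𝓝 z] f') :
    dz j f z = dz j f' z := by
  unfold dz
  rw [h.fderiv_eq]

theorem dz_sum {ι : Type} (s : Finset ι) {j : Fin p} {f : ι → (Fin p → ℂ) → ℂ} {z : Fin p → ℂ}
    (h : ∀ i ∈ s, DifferentiableAt ℝ (f i) z) :
    dz j (fun z => ∑ i ∈ s, f i z) z = ∑ i ∈ s, dz j (f i) z := by
  have h1 : HasFDerivAt (fun z => ∑ i ∈ s, f i z) (∑ i ∈ s, fderiv ℝ (f i) z) z :=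
    HasFDerivAt.fun_sum fun i hi => (h i hi).hasFDerivAt
  rw [dz_of h1, _root_.sum_apply, _root_.sum_apply, Finset.mul_sum,
    ← Finset.sum_sub_distrib, Finset.sum_div]
  rfl

/-- chain rule for the complex Hessian -/
theorem hes_comp {F : (Fin k → ℂ) → ℝ} (hF : ContDiff ℝ ∞ F) {V : Set (Fin p → ℂ)}
    (hV : IsOpen V) {ξ : (Fin p → ℂ) → (Fin k → ℂ)} (hξ : DifferentiableOn ℂ ξ V)
    {z : Fin p → ℂ} (hz : z ∈ V) (a b : Fin p) :
    hes (fun z => F (ξ z)) z a b = ∑ j, ∑ l, hes F (ξ z) j l *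
      fderiv ℂ ξ z (Pi.single a 1) j * star (fderiv ℂ ξ z (Pi.single b 1) l) := by
  have hG : ContDiff ℝ ∞ (cf F) := Complex.ofRealCLM.contDiff.comp hF
  have hGb : ∀ l, ContDiff ℝ ∞ (db l (cf F)) := fun l => by
    rw [← contDiffOn_univ]
    exact ((hCAL k l l (cf F) (cf F) 0).2.2.2.2 Set.univ isOpen_univ hG.contDiffOn).2
  have hGd : ∀ w, DifferentiableAt ℝ (cf F) w := fun w =>
    (hG.differentiable (by simp)).differentiableAt
  have hGbd : ∀ l w, DifferentiableAt ℝ (db l (cf F)) w := fun l w =>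
    ((hGb l).differentiable (by simp)).differentiableAt
  -- the derivatives of the components
  have hB : ∀ l, DifferentiableOn ℂ (fun z => fderiv ℂ ξ z (Pi.single b 1) l) V := by
    intro l
    have h1 := Hol.differentiableOn_fderiv_apply hV (differentiableOn_pi.1 hξ l) (Pi.single b 1)
    refine h1.congr fun z' hz' => ?_
    have h2 := fderiv_pi fun i => (differentiableAt_pi.1 (hξ.differentiableAt (hV.mem_nhds hz')) i)
    rw [h2]
    rfl
  have hBd : ∀ l, DifferentiableAt ℂ (fun z => fderiv ℂ ξ z (Pi.single b 1) l) z := fun l =>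
    (hB l).differentiableAt (hV.mem_nhds hz)
  have hBr : ∀ l, DifferentiableAt ℝ (fun z => fderiv ℂ ξ z (Pi.single b 1) l) z := fun l =>
    (hBd l).restrictScalars ℝ
  have hξz := hξ.differentiableAt (hV.mem_nhds hz)
  have hξr : DifferentiableAt ℝ ξ z := hξz.restrictScalars ℝ
  have e1 : db b (cf fun z => F (ξ z)) =ᶠ[𝓝 z] fun z' =>
      ∑ l ∈ Finset.univ, db l (cf F) (ξ z') * star (fderiv ℂ ξ z' (Pi.single b 1) l) := by
    filter_upwards [hV.mem_nhds hz] with z' hz'
    exact (chain_dz (hGd _) (hξ.differentiableAt (hV.mem_nhds hz')) b).2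
  have hstar : ∀ l, DifferentiableAt ℝ (fun z' => star (fderiv ℂ ξ z' (Pi.single b 1) l)) z :=
    fun l => (hBr l).star
  have hcomp : ∀ l, DifferentiableAt ℝ (fun z' => db l (cf F) (ξ z')) z := fun l =>
    (hGbd l _).comp z hξr
  have e2 : hes (fun z => F (ξ z)) z a b = dz a (db b (cf fun z => F (ξ z))) z := rfl
  rw [e2, dz_congr e1, dz_sum (f := fun l z' => db l (cf F) (ξ z') *
    star (fderiv ℂ ξ z' (Pi.single b 1) l)) _ fun l _ => (hcomp l).mul (hstar l), Finset.sum_comm]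
  refine Finset.sum_congr rfl fun l _ => ?_
  have e3 := ((hCAL p a a (fun z' => db l (cf F) (ξ z'))
    (fun z' => star (fderiv ℂ ξ z' (Pi.single b 1) l)) z).1 (hcomp l) (hstar l)).2.2.1
  have e4 := ((hCAL p a a (fun z' => fderiv ℂ ξ z' (Pi.single b 1) l)
    (fun z' => fderiv ℂ ξ z' (Pi.single b 1) l) z).1 (hBr l) (hBr l)).2.2.2.2.1
  have e5 := ((hCAL p a a (fun z' => fderiv ℂ ξ z' (Pi.single b 1) l)
    (fun z' => fderiv ℂ ξ z' (Pi.single b 1) l) z).2.2.1 (hBd l)).1
  rw [e3, e4, e5, star_zero, mul_zero, add_zero, (chain_dz (hGbd l _) hξz a).1, Finset.sum_mul]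
  rfl

/-- the complex Hessian of project NO at `0` -/
theorem chess_eq {F : (Fin k → ℂ) → ℝ} (hF : ContDiff ℝ ∞ F) : chess F = hes F 0 := by
  ext i j
  have hFd : Differentiable ℝ F := hF.differentiable (by simp)
  have hF1 : ContDiff ℝ ∞ (fderiv ℝ F) := hF.fderiv_right (by simp)
  have hF1d : Differentiable ℝ (fderiv ℝ F) := hF1.differentiable (by simp)
  have hD : ∀ v w, D2 F v w = fderiv ℝ (fderiv ℝ F) 0 w v := by
    intro v w
    unfold D2
    rw [fderiv_clm_apply (hF1d 0) (differentiableAt_const v)]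
    simp
  have hsymm : ∀ v w, D2 F v w = D2 F w v := by
    intro v w
    rw [hD, hD]
    have := (hF.contDiffAt (x := 0)).isSymmSndFDerivAt
      (by rw [minSmoothness_of_isRCLikeNormedField]; exact WithTop.coe_le_coe.2 le_top)
    exact this w v
  have h1 : ∀ v, Differentiable ℝ (fun z => fderiv ℝ F z v) := fun v =>
    hF1d.clm_apply (differentiable_const v)
  have h2 : ∀ z v, fderiv ℝ (cf F) z v = (fderiv ℝ F z v : ℂ) := by
    intro z v
    have h3 : HasFDerivAt (cf F) (Complex.ofRealCLM.comp (fderiv ℝ F z)) z :=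
      Complex.ofRealCLM.hasFDerivAt.comp z (hFd z).hasFDerivAt
    rw [h3.fderiv]
    rfl
  have h4 : db j (cf F) = fun z => ((fderiv ℝ F z (Pi.single j 1) : ℂ) +
      Complex.I * (fderiv ℝ F z (Pi.single j Complex.I) : ℂ)) / 2 := by
    funext z
    unfold db
    rw [h2, h2]
  have h5 : HasFDerivAt (fun z => ((fderiv ℝ F z (Pi.single j 1) : ℂ) +
      Complex.I * (fderiv ℝ F z (Pi.single j Complex.I) : ℂ)) / 2)
      ((2 : ℂ)⁻¹ • (Complex.ofRealCLM.comp (fderiv ℝ (fun z => fderiv ℝ F z (Pi.single j 1)) 0) +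
        Complex.I • Complex.ofRealCLM.comp
          (fderiv ℝ (fun z => fderiv ℝ F z (Pi.single j Complex.I)) 0))) 0 := by
    have a1 : HasFDerivAt (fun z => (fderiv ℝ F z (Pi.single j 1) : ℂ))
        (Complex.ofRealCLM.comp (fderiv ℝ (fun z => fderiv ℝ F z (Pi.single j 1)) 0)) 0 :=
      Complex.ofRealCLM.hasFDerivAt.comp 0 (h1 _ 0).hasFDerivAt
    have a2 : HasFDerivAt (fun z => (fderiv ℝ F z (Pi.single j Complex.I) : ℂ))
        (Complex.ofRealCLM.comp (fderiv ℝ (fun z => fderiv ℝ F z (Pi.single j Complex.I)) 0)) 0 :=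
      Complex.ofRealCLM.hasFDerivAt.comp 0 (h1 _ 0).hasFDerivAt
    have a3 := (a1.add (a2.const_smul Complex.I)).const_smul (2 : ℂ)⁻¹
    refine a3.congr_of_eventuallyEq (Eventually.of_forall fun z => ?_)
    simp only [Pi.smul_apply, Pi.add_apply, smul_eq_mul]
    ring
  have h6 : hes F 0 i j = dz i (db j (cf F)) 0 := rfl
  rw [h6, h4, dz_of h5]
  unfold chess
  have e : ∀ v w, (Complex.ofRealCLM.comp (fderiv ℝ (fun z => fderiv ℝ F z v) 0)) w =
      ((D2 F v w : ℝ) : ℂ) := fun v w => rfl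
  simp only [_root_.smul_apply, _root_.add_apply, e, smul_eq_mul]
  rw [hsymm (Pi.single i 1) (Pi.single j 1), hsymm (Pi.single i Complex.I) (Pi.single j Complex.I),
    hsymm (Pi.single i 1) (Pi.single j Complex.I), hsymm (Pi.single i Complex.I) (Pi.single j 1)]
  push_cast
  linear_combination ((((D2 F (Pi.single j Complex.I) (Pi.single i Complex.I) : ℝ) : ℂ)) / 4) *
    Complex.I_mul_I

end chain

end Pool.Agent.Helper31.KP
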