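import Pool.Agent.Helper52.KP.StW

/-!
# Project KP (MP_26be5b_ag), module DIV: integration by parts for the cofactor matrix
-/

set_option autoImplicit false

namespace Pool.Agent.Helper31.KP.DIV

open Pool.Agent.Helper52.KP MeasureTheory Filter Set
open scoped ContDiff ComplexOrder Topology

/-- entries of the adjugate of a smooth matrix are smooth -/
private theorem smooth_det {m : ℕ} {U : Set (Fin m → ℂ)}
    {A : (Fin m → ℂ) → Matrix (Fin m) (Fin m) ℂ} (hA : ∀ j k, ContDiffOn ℝ ∞ (fun z => A z j k) U) :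
    ContDiffOn ℝ ∞ (fun z => (A z).det) U := by
  simp only [Matrix.det_apply]
  refine ContDiffOn.sum fun σ _ => ?_
  refine ContDiffOn.const_smul _ ?_
  exact contDiffOn_prod fun i _ => hA _ _

private theorem smooth_adj {m : ℕ} {U : Set (Fin m → ℂ)}
    {A : (Fin m → ℂ) → Matrix (Fin m) (Fin m) ℂ} (hA : ∀ j k, ContDiffOn ℝ ∞ (fun z => A z j k) U)
    (k j : Fin m) : ContDiffOn ℝ ∞ (fun z => (A z).adjugate k j) U := by
  simp only [Matrix.adjugate_apply]
  refine smooth_det fun i l => ?_
  by_cases h : i = j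
  · subst h
    simp only [Matrix.updateRow_self]
    exact contDiffOn_const
  · simp only [Matrix.updateRow_ne h]
    exact hA i l

private theorem smooth_hes (hCAL : StCAL) {m : ℕ} {U : Set (Fin m → ℂ)} (hU : IsOpen U)
    {u : (Fin m → ℂ) → ℝ} (hu : ContDiffOn ℝ ∞ u U) (j k : Fin m) :
    ContDiffOn ℝ ∞ (fun z => hes u z j k) U := by
  have h1 : ContDiffOn ℝ ∞ (cf u) U := Complex.ofRealCLM.contDiff.comp_contDiffOn hu
  have h2 := ((hCAL m k k (cf u) (cf u) 0).2.2.2.2 U hU h1).2
  exact ((hCAL m j j _ (cf u) 0).2.2.2.2 U hU h2).1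

/-- a function which is continuous on `U` and vanishes off a compact subset is integrable -/
private theorem intg {m : ℕ} {U K : Set (Fin m → ℂ)} (hU : IsOpen U) (hK : IsCompact K)
    (hKU : K ⊆ U) {h : (Fin m → ℂ) → ℂ} (hh : ContinuousOn h U) (h0 : ∀ z, z ∉ K → h z = 0) :
    IntegrableOn h U :=
  ((hh.mono hKU).integrableOn_compact hK).of_forall_sdiff_eq_zero hU.measurableSet
    fun z hz => h0 z hz.2

/-- Module DIV. -/
theorem hDIV (hPIO : StPIO) (hIBP : StIBP) (hCAL : StCAL) : StDIV := by
  intro m U hU u v F hu hv hF hFc hFU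
  have hcF : ContDiff ℝ ∞ (cf F) := Complex.ofRealCLM.contDiff.comp hF
  have hcv : ContDiffOn ℝ ∞ (cf v) U := Complex.ofRealCLM.contDiff.comp_contDiffOn hv
  have ha : ∀ k j, ContDiffOn ℝ ∞ (fun z => (hes u z).adjugate k j) U :=
    fun k j => smooth_adj (fun j k => smooth_hes hCAL hU hu j k) k j
  have hw : ∀ j, ContDiffOn ℝ ∞ (dz j (cf v)) U :=
    fun j => ((hCAL m j j (cf v) (cf v) 0).2.2.2.2 U hU hcv).1
  have hdF : ∀ k, ContDiff ℝ ∞ (db k (cf F)) := fun k => by
    rw [← contDiffOn_univ]
    exact ((hCAL m k k (cf F) (cf F) 0).2.2.2.2 univ isOpen_univ hcF.contDiffOn).2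
  -- vanishing off the support
  have hF0 : ∀ z, z ∉ tsupport F → cf F =ᶠ[𝓝 z] fun _ => 0 := fun z hz => by
    filter_upwards [(isClosed_tsupport F).isOpen_compl.mem_nhds hz] with x hx
    simp [cf, image_eq_zero_of_notMem_tsupport hx]
  have hdb0 : ∀ (k : Fin m) (f : (Fin m → ℂ) → ℂ) z, f =ᶠ[𝓝 z] (fun _ => 0) → db k f z = 0 := by
    intro k f z h
    unfold db
    rw [h.fderiv_eq]
    simp
  -- the functions
  set G : Fin m → Fin m → (Fin m → ℂ) → ℂ := fun j k z =>
    cf F z * ((hes u z).adjugate k j * dz j (cf v) z) with hG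
  have hG0 : ∀ j k z, z ∉ tsupport F → G j k =ᶠ[𝓝 z] fun _ => 0 := fun j k z hz => by
    filter_upwards [hF0 z hz] with x hx
    simp only [hG, hx, zero_mul]
  have hGU : ∀ j k, ContDiffOn ℝ ∞ (G j k) U := fun j k =>
    hcF.contDiffOn.mul ((ha k j).mul (hw j))
  have hGs : ∀ j k, ContDiff ℝ ∞ (G j k) := fun j k => by
    rw [contDiff_iff_contDiffAt]
    intro z
    by_cases hz : z ∈ tsupport F
    · exact (hGU j k).contDiffAt (hU.mem_nhds (hFU hz))
    · exact contDiffAt_const.congr_of_eventuallyEq (hG0 j k z hz)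
  have hGc : ∀ j k, HasCompactSupport (G j k) := fun j k => by
    refine HasCompactSupport.intro hFc fun z hz => (hG0 j k z hz).self_of_nhds
  -- the integrals vanish
  have hI : ∀ j k, ∫ z in U, db k (G j k) z = 0 := fun j k => by
    have h1 := (hIBP m k (fun _ => 1) (G j k) contDiff_const ((hGs j k).of_le (by exact_mod_cast le_top))
      (hGc j k)).2
    have h2 : ∀ z, db k (fun _ : Fin m → ℂ => (1 : ℂ)) z = 0 := fun z => by
      unfold db
      simp
    simp only [h2, zero_mul, one_mul, integral_zero] at h1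
    have h3 : ∫ z, db k (G j k) z = 0 := by
      have := neg_eq_zero.1 h1.symm
      exact this
    rw [setIntegral_eq_integral_of_forall_compl_eq_zero, h3]
    intro z hz
    exact hdb0 k _ z (hG0 j k z fun h => hz (hFU h))
  -- Leibniz rule
  have hL : ∀ j k, ∀ z ∈ U, db k (G j k) z =
      (hes u z).adjugate k j * dz j (cf v) z * db k (cf F) z +
      cf F z * (db k (fun z => (hes u z).adjugate k j) z * dz j (cf v) z) +
      cf F z * ((hes u z).adjugate k j * hes v z j k) := by
    intro j k z hz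
    have d1 : DifferentiableAt ℝ (cf F) z := (hcF.differentiable (by simp)).differentiableAt
    have d2 : DifferentiableAt ℝ (fun z => (hes u z).adjugate k j) z :=
      ((ha k j).contDiffAt (hU.mem_nhds hz)).differentiableAt (by simp)
    have d3 : DifferentiableAt ℝ (dz j (cf v)) z :=
      ((hw j).contDiffAt (hU.mem_nhds hz)).differentiableAt (by simp)
    have e1 := ((hCAL m k k (cf F) (fun z => (hes u z).adjugate k j * dz j (cf v) z) z).1 d1
      (d2.mul d3)).2.2.2.1
    have e2 := ((hCAL m k k (fun z => (hes u z).adjugate k j) (dz j (cf v)) z).1 d2 d3).2.2.2.1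
    have e3 : db k (dz j (cf v)) z = hes v z j k := by
      have h1 : ContDiffAt ℝ 2 (cf v) z :=
        (hcv.contDiffAt (hU.mem_nhds hz)).of_le (WithTop.coe_le_coe.2 le_top)
      exact ((hCAL m j k (cf v) (cf v) z).2.2.2.1 h1).1
    simp only [hG]
    rw [e1, e2, e3]
    ring
  have hsum : ∀ z ∈ U, ∑ j, ∑ k, db k (G j k) z =
      (∑ j, ∑ k, (hes u z).adjugate k j * dz j (cf v) z * db k (cf F) z) +
      (F z : ℂ) * ∑ j, ∑ k, (hes u z).adjugate k j * hes v z j k := by
    intro z hz
    have h1 : ∀ j, ∑ k, db k (G j k) z =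
        (∑ k, (hes u z).adjugate k j * dz j (cf v) z * db k (cf F) z) +
        (F z : ℂ) * ∑ k, (hes u z).adjugate k j * hes v z j k := by
      intro j
      have h2 := (hPIO m U hU u hu z hz j).1
      rw [Finset.sum_congr rfl fun k _ => hL j k z hz]
      rw [Finset.sum_add_distrib, Finset.sum_add_distrib]
      have h3 : ∑ k, cf F z * (db k (fun z => (hes u z).adjugate k j) z * dz j (cf v) z) = 0 := by
        rw [← Finset.mul_sum, ← Finset.sum_mul, h2]
        simp
      rw [h3, add_zero, ← Finset.mul_sum]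
      rfl
    rw [Finset.sum_congr rfl fun j _ => h1 j, Finset.sum_add_distrib, ← Finset.mul_sum]
  -- integrability
  have i1 : IntegrableOn (fun z => ∑ j, ∑ k, (hes u z).adjugate k j * dz j (cf v) z *
      db k (cf F) z) U := by
    refine intg hU hFc hFU ?_ fun z hz => ?_
    · refine continuousOn_finsetSum _ fun j _ => continuousOn_finsetSum _ fun k _ => ?_
      exact ((ha k j).continuousOn.mul (hw j).continuousOn).mul (hdF k).continuous.continuousOn
    · refine Finset.sum_eq_zero fun j _ => Finset.sum_eq_zero fun k _ => ?_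
      rw [hdb0 k _ z (hF0 z hz), mul_zero]
  have i2 : IntegrableOn (fun z => (F z : ℂ) * ∑ j, ∑ k, (hes u z).adjugate k j * hes v z j k)
      U := by
    refine intg hU hFc hFU ?_ fun z hz => ?_
    · refine hcF.continuous.continuousOn.mul ?_
      refine continuousOn_finsetSum _ fun j _ => continuousOn_finsetSum _ fun k _ => ?_
      exact (ha k j).continuousOn.mul (smooth_hes hCAL hU hv j k).continuousOn
    · rw [image_eq_zero_of_notMem_tsupport hz]
      simp
  have i3 : ∀ j k, IntegrableOn (fun z => db k (G j k) z) U := fun j k => by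
    refine intg hU hFc hFU ?_ fun z hz => hdb0 k _ z (hG0 j k z hz)
    exact ((hCAL m k k (G j k) (cf F) 0).2.2.2.2 U hU (hGU j k)).2.continuousOn
  have htot : ∫ z in U, ∑ j, ∑ k, db k (G j k) z = 0 := by
    rw [integral_finsetSum _ fun j _ => integrable_finsetSum _ fun k _ => i3 j k]
    refine Finset.sum_eq_zero fun j _ => ?_
    rw [integral_finsetSum _ fun k _ => i3 j k]
    exact Finset.sum_eq_zero fun k _ => hI j k
  rw [setIntegral_congr_fun hU.measurableSet hsum, integral_add i1 i2] at htot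
  rw [eq_neg_iff_add_eq_zero, add_comm]
  exact htot

end Pool.Agent.Helper31.KP.DIV
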