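import Pool.Agent.Helper52.KP.StW

/-!
# Project KP (MP_26be5b_ag), module DTM: monotonicity of the determinant on positive semidefinite
matrices
-/

set_option autoImplicit false

namespace Pool.Agent.Helper31.KP

open Pool.Agent.Helper52.KP Matrix
open scoped ComplexOrder MatrixOrder

/-- `Psd` in the convention of the project is positive semidefiniteness of the transpose -/
private theorem posSemidef_of_psd {m : ℕ} {A : Matrix (Fin m) (Fin m) ℂ} (hA : Psd A) :
    (Aᵀ).PosSemidef := by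
  have hH : (Aᵀ).IsHermitian := hA.1.transpose
  refine PosSemidef.of_dotProduct_mulVec_nonneg hH fun x => ?_
  have e : star x ⬝ᵥ (Aᵀ *ᵥ x) = ∑ j, ∑ k, A j k * x j * star (x k) := by
    simp only [dotProduct, mulVec, Finset.mul_sum, Pi.star_apply, transpose_apply]
    rw [Finset.sum_comm]
    refine Finset.sum_congr rfl fun j _ => Finset.sum_congr rfl fun k _ => ?_
    ring
  have h1 := hA.2 x
  unfold hf at h1
  have him : (star x ⬝ᵥ (Aᵀ *ᵥ x)).im = 0 := by
    have h2 := hH.im_star_dotProduct_mulVec_self x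
    simpa using h2
  rw [Complex.nonneg_iff]
  exact ⟨by rw [e]; exact h1, him.symm⟩

private theorem det_one_add {m : ℕ} {N : Matrix (Fin m) (Fin m) ℂ} (hN : N.PosSemidef) :
    ∃ r : ℝ, 1 ≤ r ∧ (1 + N).det = (r : ℂ) := by
  refine ⟨∏ i, (1 + hN.1.eigenvalues i), ?_, ?_⟩
  · have : ∀ i, (1 : ℝ) ≤ 1 + hN.1.eigenvalues i := fun i => by
      have := hN.eigenvalues_nonneg i
      linarith
    calc (1 : ℝ) = ∏ _i : Fin m, (1 : ℝ) := by simp
      _ ≤ _ := Finset.prod_le_prod (fun _ _ => zero_le_one) (fun i _ => this i)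
  · have h1 := congrArg (Polynomial.eval (-1)) hN.1.charpoly_eq
    rw [eval_charpoly, Polynomial.eval_prod] at h1
    simp only [Polynomial.eval_sub, Polynomial.eval_X, Polynomial.eval_C] at h1
    have e : (1 + N) = -(scalar (Fin m) (-1 : ℂ) - N) := by
      rw [map_neg, map_one]
      abel
    rw [e, det_neg, h1, Fintype.card_fin]
    have h2 : ∀ i : Fin m, (-1 - (hN.1.eigenvalues i : ℂ)) = -1 * (1 + (hN.1.eigenvalues i : ℂ)) :=
      fun i => by ring
    have h3 : ∏ i : Fin m, (-1 - (hN.1.eigenvalues i : ℂ)) =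
        (-1) ^ m * ∏ i : Fin m, (1 + (hN.1.eigenvalues i : ℂ)) := by
      rw [Finset.prod_congr rfl fun i _ => h2 i, Finset.prod_mul_distrib]
      simp
    have h4 : ((-1 : ℂ) ^ m) * ((-1) ^ m * ∏ i : Fin m, (1 + (hN.1.eigenvalues i : ℂ))) =
        ∏ i : Fin m, (1 + (hN.1.eigenvalues i : ℂ)) := by
      rw [← mul_assoc, ← mul_pow]
      simp
    rw [Complex.ofReal_prod]
    simp only [Complex.ofReal_add, Complex.ofReal_one]
    exact (congrArg (fun t => ((-1 : ℂ) ^ m) * t) h3).trans h4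

private theorem mono {m : ℕ} {A B : Matrix (Fin m) (Fin m) ℂ} (hA : A.PosSemidef)
    (hB : B.PosSemidef) : A.det.re ≤ (A + B).det.re := by
  have hAB := (hA.add hB).det_nonneg
  have hA0 := hA.det_nonneg
  rw [Complex.nonneg_iff] at hAB hA0
  by_cases h0 : A.det = 0
  · rw [h0]
    exact hAB.1
  obtain ⟨C, hC⟩ : ∃ C : Matrix (Fin m) (Fin m) ℂ, A = Cᴴ * C :=
    CStarAlgebra.nonneg_iff_eq_star_mul_self.mp hA.nonneg
  have hCd : IsUnit C.det := by
    rw [isUnit_iff_ne_zero]
    intro hc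
    apply h0
    rw [hC, det_mul, hc, mul_zero]
  have hN : (C⁻¹ᴴ * B * C⁻¹).PosSemidef := hB.conjTranspose_mul_mul_same _
  obtain ⟨r, hr, hr'⟩ := det_one_add hN
  have e1 : C⁻¹ * C = 1 := nonsing_inv_mul C hCd
  have e2 : Cᴴ * C⁻¹ᴴ = 1 := by
    rw [← conjTranspose_mul, e1, conjTranspose_one]
  have e : A + B = Cᴴ * (1 + C⁻¹ᴴ * B * C⁻¹) * C := by
    rw [Matrix.mul_add, Matrix.add_mul, Matrix.mul_one, ← hC]
    congr 1
    calc B = (Cᴴ * C⁻¹ᴴ) * B * (C⁻¹ * C) := by rw [e1, e2, Matrix.one_mul, Matrix.mul_one]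
      _ = _ := by simp only [Matrix.mul_assoc]
  have e3 : (A + B).det = A.det * (r : ℂ) := by
    rw [e, det_mul, det_mul, hr', hC, det_mul]
    ring
  rw [e3, Complex.re_mul_ofReal]
  nlinarith [hA0.1]

/-- Module DTM. -/
theorem hDTM : StDTM := by
  intro m A B hA hB
  have hA' := posSemidef_of_psd hA
  have hB' := posSemidef_of_psd hB
  have h1 := hA'.det_nonneg
  rw [det_transpose, Complex.nonneg_iff] at h1
  refine ⟨h1.1, h1.2.symm, ?_⟩
  have h2 := mono hA' hB'
  rwa [← transpose_add, det_transpose, det_transpose] at h2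

end Pool.Agent.Helper31.KP
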