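import Pool.Agent.Helper31.KP.M_RHO

/-!
# Project KP (MP_26be5b_ag), module NUD: the complement of the chart is negligible for projections
-/

set_option autoImplicit false

namespace Pool.Agent.Helper31.KP

open Pool.Agent.Helper52.KP Pool.Agent.Helper67.NO Filter MeasureTheory
open scoped Topology ContDiff

universe u

/-- The zero set of an entire function of several variables which is not zero is a null set. -/
theorem null_of_entire {m : ℕ} {P : (Fin m → ℂ) → ℂ} (hP : Differentiable ℂ P) {w₀ : Fin m → ℂ}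
    (h : P w₀ ≠ 0) : volume {w | P w = 0} = 0 := by
  have hcont : Continuous P := hP.continuous
  set S : Set ((Fin m → ℂ) × ℂ) := {q | P (w₀ + q.2 • q.1) = 0} with hSdef
  have hS : MeasurableSet S := by
    have : IsClosed S := isClosed_eq (hcont.comp (by fun_prop)) continuous_const
    exact this.measurableSet
  have h1 : (volume.prod volume) S = 0 := by
    rw [Measure.measure_prod_null hS]
    refine Eventually.of_forall fun v => ?_
    have ha : AnalyticOnNhd ℂ (fun s : ℂ => P (w₀ + s • v)) Set.univ := by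
      intro s _
      have hd : Differentiable ℂ fun s : ℂ => P (w₀ + s • v) := hP.comp (by fun_prop)
      exact hd.analyticAt s
    have hc := ha.preimage_zero_mem_codiscrete (x := 0) (by simpa using h)
    have hc2 := ae_restrict_le_codiscreteWithin (μ := (volume : Measure ℂ)) MeasurableSet.univ hc
    rw [Measure.restrict_univ, mem_ae_iff] at hc2
    refine measure_mono_null (fun s hs => ?_) hc2
    simp only [Set.mem_compl_iff, Set.mem_preimage, Set.mem_singleton_iff, not_not]
    exact hs
  have h2 : (volume.prod volume) (Prod.swap ⁻¹' S : Set (ℂ × (Fin m → ℂ))) = 0 := by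
    rw [Measure.measurePreserving_swap.measure_preimage hS.nullMeasurableSet]
    exact h1
  have h3 := Measure.measure_ae_null_of_prod_null h2
  have h4 : ∀ᵐ s : ℂ, s ≠ 0 := by
    rw [ae_iff]
    simp
  obtain ⟨s, hs, hs0⟩ := (h3.and h4).exists
  have h5 : volume ((fun v : Fin m → ℂ => w₀ + s • v) '' {v | P (w₀ + s • v) = 0}) = 0 := by
    refine addHaar_image_eq_zero_of_differentiableOn_of_addHaar_eq_zero volume ?_ hs
    have hd : Differentiable ℂ fun v : Fin m → ℂ => w₀ + s • v := by fun_prop
    exact (hd.restrictScalars ℝ).differentiableOn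
  refine measure_mono_null (fun w hw => ?_) h5
  have h6 : w₀ + s • (s⁻¹ • (w - w₀)) = w := by
    rw [smul_smul, mul_inv_cancel₀ hs0, one_smul]
    abel
  refine ⟨s⁻¹ • (w - w₀), ?_, h6⟩
  change P (w₀ + s • (s⁻¹ • (w - w₀))) = 0
  rw [h6]
  exact hw

/-- Module NUD. -/
theorem hNUD (hTRN : StTRN.{u}) (hNEA : StNEA.{u}) (hORB : StORB.{u}) : StNUD.{u} := by
  intro g _ _ _ _ x₀ hx₀ hn C y
  obtain ⟨-, -, h3, h4, -, h6, -⟩ := hORB g
  have hm : 0 < C.m := by
    have := C.hm
    have := C.hn
    omega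
  -- the local statement
  have key : ∀ x : OO x₀, ∃ δ : ℝ, 0 < δ ∧ ∃ T : Set (Fin C.m → ℂ), volume T = 0 ∧
      ∀ x' : OO x₀, size (x'.1 - x.1) < δ → C.p₁ x' = 0 → (fun i => y i x'.1) ∈ T := by
    intro x
    have hrk : rk x.1 = C.m := by
      rw [(h3 x₀ x.1 x.2).2.1, C.hrk]
    have hne : x.1 ≠ 0 := by
      intro h0
      rw [h0] at hrk
      have : rk (0 : g) = 0 := by
        unfold rk
        rw [map_zero]
        have : ((0 : Module.End ℂ g) : g →ₗ[ℂ] g) = 0 := rfl
        rw [this, LinearMap.range_zero, finrank_bot]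
      omega
    have hnil : IsNilpotent (LieAlgebra.ad ℂ g x.1) := (h3 x₀ x.1 x.2).2.2 hn
    obtain ⟨X, hX⟩ := frm_of_eq (h6 x.1) C.m hrk
    obtain ⟨W, δ, ε, hδ, -, -, hW, -⟩ := hNEA g x.1 hne hnil C.m X hX
    obtain ⟨ε', -, -, -, -, hε', -, -, -, -, -, hP, -⟩ := hTRN g x₀ hx₀ hn C x X hX
    have horb : ∀ w : Fin C.m → ℂ, Orb x₀ (chart x.1 X w) := fun w => Orb.step _ _ x.2
    set P : (Fin C.m → ℂ) → ℂ := fun w => C.p₁ ⟨chart x.1 X w, horb w⟩ with hPdef
    have hPe : ∀ w, ext C.p₁ (chart x.1 X w) = P w := by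
      intro w
      unfold ext
      rw [dif_pos (horb w)]
    have hPd : Differentiable ℂ P := C.p1mem.1 x C.m X
    obtain ⟨w₀, -, hw₀⟩ := hP (Metric.ball 0 ε') Metric.isOpen_ball
      ⟨0, Metric.mem_ball_self hε'⟩ (fun w hw => by simpa using hw)
    rw [hPe] at hw₀
    have hnull := null_of_entire hPd hw₀
    refine ⟨δ, hδ, (fun w i => y i (chart x.1 X w)) '' {w | P w = 0}, ?_, ?_⟩
    · refine addHaar_image_eq_zero_of_differentiableOn_of_addHaar_eq_zero volume ?_ hnull
      have hd : Differentiable ℂ fun (w : Fin C.m → ℂ) (i : Fin C.m) => y i (chart x.1 X w) := by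
        rw [differentiable_pi]
        intro i
        have hco : Differentiable ℂ fun w : Fin C.m → ℂ => co (chart x.1 X w) :=
          differentiableOn_univ.1 (h4 C.m x.1 X).1
        have e : ∀ w : Fin C.m → ℂ, y i (chart x.1 X w) =
            ∑ j, co (chart x.1 X w) j * y i (Module.finBasis ℂ g j) := by
          intro w
          conv_lhs => rw [← (Module.finBasis ℂ g).sum_repr (chart x.1 X w)]
          rw [map_sum]
          refine Finset.sum_congr rfl fun j _ => ?_
          rw [map_smul, smul_eq_mul]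
          rfl
        simp only [e]
        refine Differentiable.fun_sum fun j _ => ?_
        exact ((differentiable_pi.1 hco) j).mul_const _
      exact (hd.restrictScalars ℝ).differentiableOn
    · intro x' hx' hp
      have e1 : x'.1 = chart x.1 X (W x'.1) := by
        refine hW x'.1 hx' ((h3 x₀ x'.1 x'.2).2.2 hn) ?_
        rw [(h3 x₀ x'.1 x'.2).2.1, (h3 x₀ x.1 x.2).2.1]
      refine ⟨W x'.1, ?_, ?_⟩
      · change C.p₁ ⟨chart x.1 X (W x'.1), _⟩ = 0
        rw [← hp]
        congr 1
        exact Subtype.ext e1.symm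
      · funext i
        simp only
        rw [← e1]
  choose δ hδ T hT hTx using key
  -- countably many neighbourhoods suffice
  have hcoN : ∀ x x' : OO x₀, ∑ i, ‖co x'.1 i - co x.1 i‖ = size (x'.1 - x.1) := by
    intro x x'
    unfold size co
    refine Finset.sum_congr rfl fun i _ => ?_
    rw [map_sub, Finsupp.sub_apply]
  obtain ⟨t, hts, htc, hcov⟩ := TopologicalSpace.countable_cover_nhdsWithin
    (α := Fin (Module.finrank ℂ g) → ℂ) (s := Set.range fun x : OO x₀ => co x.1)
    (f := fun v => {v' | ∀ x : OO x₀, co x.1 = v → ∑ i, ‖v' i - co x.1 i‖ < δ x}) (by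
      rintro _ ⟨x, rfl⟩
      refine mem_nhdsWithin_of_mem_nhds ?_
      have ho : IsOpen {v' : Fin (Module.finrank ℂ g) → ℂ | ∑ i, ‖v' i - co x.1 i‖ < δ x} :=
        isOpen_lt (by fun_prop) continuous_const
      filter_upwards [ho.mem_nhds (by simpa using hδ x : co x.1 ∈ _)] with v' hv' x' hx'
      have : x' = x := Subtype.ext (co_inj hx')
      rw [this]
      exact hv')
  have hall : volume (⋃ v ∈ t, ⋃ x ∈ {x : OO x₀ | co x.1 = v}, T x) = 0 := by
    rw [measure_biUnion_null_iff htc]
    intro v _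
    rw [measure_biUnion_null_iff]
    · intro x _
      exact hT x
    · refine Set.Subsingleton.countable fun a ha b hb => ?_
      exact Subtype.ext (co_inj ((ha : co a.1 = v).trans (hb : co b.1 = v).symm))
  refine measure_mono_null ?_ hall
  rintro v ⟨x', hp, hv⟩
  obtain ⟨v', hv't, hv'⟩ := Set.mem_iUnion₂.1 (hcov ⟨x', rfl⟩)
  obtain ⟨x, hx⟩ := hts hv't
  have h7 : size (x'.1 - x.1) < δ x := by
    rw [← hcoN]
    exact hv' x hx
  have h8 : v = fun i => y i x'.1 := funext fun i => (hv i).symm
  rw [h8]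
  exact Set.mem_iUnion₂.2 ⟨v', hv't, Set.mem_iUnion₂.2 ⟨x, hx, hTx x x' h7 hp⟩⟩

end Pool.Agent.Helper31.KP
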