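import Pool.Agent.Helper31.KP.Chain
import Pool.Agent.Helper31.KP.M_TAN

/-!
# Project KP (MP_26be5b_ag), module RHO: the potential along holomorphic maps to the orbit
-/

set_option autoImplicit false

namespace Pool.Agent.Helper31.KP

open Pool.Agent.Helper52.KP Pool.Agent.Helper67.NO Filter Matrix
open scoped Topology ContDiff ComplexOrder

universe u

theorem hes_congr {m : ℕ} {f f' : (Fin m → ℂ) → ℝ} {z : Fin m → ℂ} (h : f =ᶠ[𝓝 z] f') :
    hes f z = hes f' z := by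
  ext j k
  have h1 : db k (cf f) =ᶠ[𝓝 z] db k (cf f') := by
    filter_upwards [h.eventuallyEq_nhds] with w hw
    have h2 : cf f =ᶠ[𝓝 w] cf f' := by
      filter_upwards [hw] with v hv
      simp only [cf, hv]
    unfold db
    rw [h2.fderiv_eq]
  exact dz_congr h1

theorem co_inj {g : Type u} [LieRing g] [LieAlgebra ℂ g] [FiniteDimensional ℂ g] {x y : g}
    (h : co x = co y) : x = y := by
  apply (Module.finBasis ℂ g).repr.injective
  ext i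
  exact congrFun h i

theorem frm_of_eq {g : Type u} [LieRing g] [LieAlgebra ℂ g] [FiniteDimensional ℂ g] {x : g}
    (h : ∃ X : Fin (rk x) → g, Frm x X) (q : ℕ) (hq : rk x = q) : ∃ X : Fin q → g, Frm x X := by
  subst hq
  exact h

/-- the KKS form depends only on the tangent vectors -/
theorem kks_congr {g : Type u} [LieRing g] [LieAlgebra ℂ g] [FiniteDimensional ℂ g]
    {x Y Y' Z Z' : g} (h : ⁅Y, x⁆ = ⁅Y', x⁆) (h' : ⁅Z, x⁆ = ⁅Z', x⁆) :
    killingForm ℂ g x ⁅Y, Z⁆ = killingForm ℂ g x ⁅Y', Z'⁆ := by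
  have e1 : ∀ A B : g, killingForm ℂ g x ⁅A, B⁆ = - killingForm ℂ g ⁅A, x⁆ B := by
    intro A B
    rw [← LieModule.traceForm_apply_lie_apply, ← lie_skew A x, map_neg, LinearMap.neg_apply,
      neg_neg]
  have e2 : killingForm ℂ g x ⁅Y, Z⁆ = killingForm ℂ g x ⁅Y', Z⁆ := by
    rw [e1, e1, h]
  have e3 : killingForm ℂ g x ⁅Y', Z⁆ = killingForm ℂ g x ⁅Y', Z'⁆ := by
    rw [← lie_skew Y' Z, ← lie_skew Y' Z', map_neg, map_neg, e1, e1, h']
  rw [e2, e3]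

section

variable {g : Type u} [LieRing g] [LieAlgebra ℂ g] [FiniteDimensional ℂ g]
  {x₀ : g} {ρ : g → ℝ} {p k : ℕ} {V' : Set (Fin p → ℂ)}
  {Ψ : (Fin p → ℂ) → g} {ξ : (Fin p → ℂ) → (Fin k → ℂ)} {X : Fin k → g} {z₀ : Fin p → ℂ}

/-- the Hessian of the potential in terms of the exponential chart -/
theorem hes_rho (hρ : RicciFlatCone x₀ ρ) (hV' : IsOpen V') (horb : Orb x₀ (Ψ z₀))
    (hz₀ : z₀ ∈ V') (hξ : DifferentiableOn ℂ ξ V') (hξ0 : ξ z₀ = 0)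
    (hΨ : ∀ z ∈ V', Ψ z = chart (Ψ z₀) X (ξ z)) :
    hes (fun z => ρ (Ψ z)) z₀ =
      (Matrix.of fun (a : Fin p) (j : Fin k) => fderiv ℂ ξ z₀ (Pi.single a 1) j) *
        chess (fun w => ρ (chart (Ψ z₀) X w)) *
        (Matrix.of fun (a : Fin p) (j : Fin k) => fderiv ℂ ξ z₀ (Pi.single a 1) j)ᴴ := by
  have hF : ContDiff ℝ ∞ (fun w : Fin k → ℂ => ρ (chart (Ψ z₀) X w)) :=
    hρ.smooth (Ψ z₀) horb k X
  have hev : (fun z => ρ (Ψ z)) =ᶠ[𝓝 z₀] fun z => (fun w => ρ (chart (Ψ z₀) X w)) (ξ z) := by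
    filter_upwards [hV'.mem_nhds hz₀] with z hz
    rw [hΨ z hz]
  rw [hes_congr hev]
  ext a b
  rw [hes_comp hF hV' hξ hz₀, hξ0, ← chess_eq hF]
  simp only [mul_apply, conjTranspose_apply, of_apply, Finset.sum_mul]
  rw [Finset.sum_comm]
  refine Finset.sum_congr rfl fun l _ => Finset.sum_congr rfl fun j _ => ?_
  ring

end

/-- Module RHO. -/
theorem hRHO (hLFT : StLFT.{u}) (hORB : StORB.{u}) : StRHO.{u} := by
  intro g _ _ _ _ x₀ hx₀ hn ρ hρ p V hV Ψ hΨ horb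
  obtain ⟨-, -, h3, -, -, h6, -⟩ := hORB g
  have hpsd : ∀ z ∈ V, Psd (hes (fun z => ρ (Ψ z)) z) := by
    intro z hz
    obtain ⟨X, hX⟩ := h6 (Ψ z)
    obtain ⟨V', ξ, hV', hzV', -, hξ, hξ0, hΨ'⟩ := hLFT g x₀ hx₀ hn p V hV Ψ hΨ horb z hz _ X hX
    rw [hes_rho hρ hV' (horb z hz) hzV' hξ hξ0 hΨ']
    exact psd_of_posSemidef ((hρ.psh (Ψ z) (horb z hz) _ X).mul_mul_conjTranspose_same _)
  refine ⟨?_, hpsd, ?_⟩
  · intro z hz
    obtain ⟨X, hX⟩ := h6 (Ψ z)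
    obtain ⟨V', ξ, hV', hzV', -, hξ, hξ0, hΨ'⟩ := hLFT g x₀ hx₀ hn p V hV Ψ hΨ horb z hz _ X hX
    have h2 : ContDiffOn ℝ ∞ (fun z' => ρ (chart (Ψ z) X (ξ z'))) V' :=
      (hρ.smooth (Ψ z) (horb z hz) _ X).comp_contDiffOn (Hol.contDiffOn_real_pi hV' hξ)
    have h3 : ContDiffOn ℝ ∞ (fun z' => ρ (Ψ z')) V' :=
      h2.congr fun z' hz' => by rw [hΨ' z' hz']
    exact ((h3 z hzV').contDiffAt (hV'.mem_nhds hzV')).contDiffWithinAt
  · intro hp z hz Z hZ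
    have hrk : rk (Ψ z) = p := by
      rw [(h3 x₀ (Ψ z) (horb z hz)).2.1, hp]
    obtain ⟨X, hX⟩ := frm_of_eq (h6 (Ψ z)) p hrk
    obtain ⟨V', ξ, hV', hzV', -, hξ, hξ0, hΨ'⟩ := hLFT g x₀ hx₀ hn p V hV Ψ hΨ horb z hz _ X hX
    have hH := hes_rho hρ hV' (horb z hz) hzV' hξ hξ0 hΨ'
    set B : Matrix (Fin p) (Fin p) ℂ :=
      Matrix.of fun (a : Fin p) (j : Fin p) => fderiv ℂ ξ z (Pi.single a 1) j with hB
    have hK : (Matrix.of fun i j : Fin p => killingForm ℂ g (Ψ z) ⁅Z i, Z j⁆) =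
        B * (Matrix.of fun i j : Fin p => killingForm ℂ g (Ψ z) ⁅X i, X j⁆) * Bᵀ := by
      have hZ' : ∀ i, ⁅Z i, Ψ z⁆ = ⁅∑ j, B i j • X j, Ψ z⁆ := by
        intro i
        apply co_inj
        rw [hZ i, tan_aux hORB g hV' hzV' hξ hξ0 hΨ' (Pi.single i 1)]
        rfl
      ext i j
      rw [of_apply, kks_congr (hZ' i) (hZ' j)]
      simp only [mul_apply, transpose_apply, of_apply, Finset.sum_mul, sum_lie, lie_sum, smul_lie,
        lie_smul, map_sum, map_smul, smul_eq_mul]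
      refine Finset.sum_congr rfl fun l _ => ?_
      rw [Finset.mul_sum]
      refine Finset.sum_congr rfl fun j _ => ?_
      ring
    have hdet : (hes (fun z => ρ (Ψ z)) z).det =
      ((‖(Matrix.of fun i j : Fin p => killingForm ℂ g (Ψ z) ⁅Z i, Z j⁆).det‖ : ℝ) : ℂ) := by
      rw [hH, hK, det_mul, det_mul, det_mul, det_mul, det_conjTranspose, det_transpose,
        hρ.flat (Ψ z) (horb z hz) p X hrk.symm, norm_mul, norm_mul]
      have h5 : B.det * star B.det = ((‖B.det‖ * ‖B.det‖ : ℝ) : ℂ) := by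
        rw [← pow_two, ← Complex.normSq_eq_norm_sq]
        exact Complex.mul_conj _
      push_cast at h5 ⊢
      linear_combination ((‖(Matrix.of fun i j : Fin p =>
        killingForm ℂ g (Ψ z) ⁅X i, X j⁆).det‖ : ℝ) : ℂ) * h5
    refine ⟨hdet, fun hne => pd_of_det (hpsd z hz) ?_⟩
    rw [hdet]
    exact Complex.ofReal_ne_zero.2 (norm_ne_zero_iff.2 hne)

end Pool.Agent.Helper31.KP
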