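import Pool.Agent.Helper52.KP.StW

/-!
# Project KP (MP_26be5b_ag), module VOL: the volume of the set where the potential is less than one
-/

set_option autoImplicit false

namespace Pool.Agent.Helper31.KP

open Pool.Agent.Helper52.KP MeasureTheory Filter Set
open scoped ContDiff ComplexOrder Topology ENNReal

private theorem ev_smooth {m : ℕ} (P : MvPolynomial (Fin m) ℂ) :
    ContDiff ℝ ∞ (fun z : Fin m → ℂ => ev P z) := by
  have h : ContDiff ℂ ∞ (fun z : Fin m → ℂ => ev P z) := by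
    rw [← contDiffOn_univ]
    exact (AnalyticOnNhd.eval_mvPolynomial (𝕜 := ℂ) P).contDiffOn uniqueDiffOn_univ
  exact h.restrict_scalars ℝ

private theorem isOpen_U (C : Cone) : IsOpen C.U := by
  have h : Continuous fun z : Fin C.m → ℂ => ev C.Δ z := (ev_smooth C.Δ).continuous
  exact isOpen_ne_fun h continuous_const

private theorem logb {c1 c2 t p : ℝ} (hc1 : 0 < c1) (h1 : c1 * (1 + t ^ 2) ≤ 1 + p)
    (h2 : 1 + p ≤ c2 * (1 + t ^ 2)) :
    Real.log c1 + Real.log (1 + t ^ 2) ≤ Real.log (1 + p) ∧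
      Real.log (1 + p) ≤ Real.log c2 + Real.log (1 + t ^ 2) := by
  have ht : 0 < 1 + t ^ 2 := by positivity
  have hp : 0 < 1 + p := lt_of_lt_of_le (by positivity) h1
  have hc2 : 0 < c2 := by
    by_contra hc
    push Not at hc
    have : c2 * (1 + t ^ 2) ≤ 0 := mul_nonpos_of_nonpos_of_nonneg hc ht.le
    linarith
  constructor
  · rw [← Real.log_mul hc1.ne' ht.ne']
    exact Real.log_le_log (by positivity) h1
  · rw [← Real.log_mul hc2.ne' ht.ne']
    exact Real.log_le_log hp h2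

private theorem log_sz {t : ℝ} (ht : 0 < t) : 2 * Real.log t ≤ Real.log (1 + t ^ 2) := by
  have h : (2 : ℝ) * Real.log t = Real.log (t ^ 2) := by
    rw [Real.log_pow]
    norm_num
  rw [h]
  exact Real.log_le_log (by positivity) (by linarith)

/-- comparison of both potentials -/
private theorem bounds (C : Cone) (hC : Good C) : ∃ c₀ : ℝ, ∀ z ∈ C.U,
    |Real.log (1 + C.u z ^ 2) / 2 - Real.log (1 + ∑ i, ‖ev (C.Y i) z‖ ^ 2) / 2| ≤ c₀ ∧
    (Real.log (C.sz z) - c₀ ≤ Real.log (1 + C.u z ^ 2) / 2 ∧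
      -c₀ ≤ Real.log (1 + C.u z ^ 2) / 2) ∧
    (Real.log (C.sz z) - c₀ ≤ Real.log (1 + ∑ i, ‖ev (C.Y i) z‖ ^ 2) / 2 ∧
      -c₀ ≤ Real.log (1 + ∑ i, ‖ev (C.Y i) z‖ ^ 2) / 2) := by
  obtain ⟨a, b, ha, hab⟩ := hC.ubd
  obtain ⟨a', ha', hY⟩ := hC.Ybd
  have hm : 0 < C.m := by have := hC.hm; have := hC.hn; omega
  have hmr : (0 : ℝ) < C.m := by exact_mod_cast hm
  choose B hB using fun i => hC.bdd 1 (C.Y i) (hC.YR i)
  set c1 : ℝ := min 1 (min (a ^ 2) (a' ^ 2 / C.m)) with hc1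
  set c2 : ℝ := max 1 (max (b ^ 2) (∑ i, B i ^ 2)) with hc2
  have c1pos : 0 < c1 := by
    rw [hc1]
    exact lt_min one_pos (lt_min (by positivity) (by positivity))
  have c1le : c1 ≤ 1 := min_le_left _ _
  have c1a : c1 ≤ a ^ 2 := (min_le_right _ _).trans (min_le_left _ _)
  have c1b : c1 ≤ a' ^ 2 / C.m := (min_le_right _ _).trans (min_le_right _ _)
  have c2ge : 1 ≤ c2 := le_max_left _ _
  have c2a : b ^ 2 ≤ c2 := (le_max_left _ _).trans (le_max_right _ _)
  have c2b : ∑ i, B i ^ 2 ≤ c2 := (le_max_right _ _).trans (le_max_right _ _)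
  have l1 : Real.log c1 ≤ 0 := Real.log_nonpos c1pos.le c1le
  have l2 : 0 ≤ Real.log c2 := Real.log_nonneg c2ge
  refine ⟨(Real.log c2 - Real.log c1) / 2, fun z hz => ?_⟩
  have hs := hC.Xpos z hz
  obtain ⟨hu1, hu2⟩ := hab z hz
  set t := C.sz z with ht
  have u0 : 0 < C.u z := lt_of_lt_of_le (by positivity) hu1
  have t2 : 0 ≤ t ^ 2 := by positivity
  -- bounds for `u`
  have p1 : c1 * (1 + t ^ 2) ≤ 1 + C.u z ^ 2 := by
    have h1 : (a * t) ^ 2 ≤ C.u z ^ 2 := pow_le_pow_left₀ (by positivity) hu1 2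
    have h2 : c1 * t ^ 2 ≤ a ^ 2 * t ^ 2 := mul_le_mul_of_nonneg_right c1a t2
    nlinarith
  have p2 : 1 + C.u z ^ 2 ≤ c2 * (1 + t ^ 2) := by
    have h1 : C.u z ^ 2 ≤ (b * t) ^ 2 := pow_le_pow_left₀ u0.le hu2 2
    have h2 : b ^ 2 * t ^ 2 ≤ c2 * t ^ 2 := mul_le_mul_of_nonneg_right c2a t2
    nlinarith
  -- bounds for the sum
  have q1 : c1 * (1 + t ^ 2) ≤ 1 + ∑ i, ‖ev (C.Y i) z‖ ^ 2 := by
    have h0 := hY z
    have h1 : (∑ i, ‖ev (C.Y i) z‖) ^ 2 ≤ C.m * ∑ i, ‖ev (C.Y i) z‖ ^ 2 := by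
      have := sq_sum_le_card_mul_sum_sq (s := (Finset.univ : Finset (Fin C.m)))
        (f := fun i => ‖ev (C.Y i) z‖)
      simpa using this
    have h2 : (a' * t) ^ 2 ≤ (∑ i, ‖ev (C.Y i) z‖) ^ 2 :=
      pow_le_pow_left₀ (by positivity) h0 2
    have h3 : a' ^ 2 / C.m * t ^ 2 ≤ ∑ i, ‖ev (C.Y i) z‖ ^ 2 := by
      rw [div_mul_eq_mul_div, div_le_iff₀ hmr]
      calc a' ^ 2 * t ^ 2 = (a' * t) ^ 2 := by ring
        _ ≤ _ := h2.trans h1
        _ = _ := by ring
    have h4 : c1 * t ^ 2 ≤ a' ^ 2 / C.m * t ^ 2 := mul_le_mul_of_nonneg_right c1b t2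
    nlinarith
  have q2 : 1 + ∑ i, ‖ev (C.Y i) z‖ ^ 2 ≤ c2 * (1 + t ^ 2) := by
    have h1 : ∑ i, ‖ev (C.Y i) z‖ ^ 2 ≤ ∑ i, B i ^ 2 * t ^ 2 := by
      refine Finset.sum_le_sum fun i _ => ?_
      have := hB i z
      rw [pow_one] at this
      calc ‖ev (C.Y i) z‖ ^ 2 ≤ (B i * t) ^ 2 := pow_le_pow_left₀ (norm_nonneg _) this 2
        _ = _ := by ring
    rw [← Finset.sum_mul] at h1
    have h2 : (∑ i, B i ^ 2) * t ^ 2 ≤ c2 * t ^ 2 := mul_le_mul_of_nonneg_right c2b t2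
    nlinarith
  obtain ⟨e1, e2⟩ := logb c1pos p1 p2
  obtain ⟨f1, f2⟩ := logb c1pos q1 q2
  have g := log_sz hs
  have g0 : 0 ≤ Real.log (1 + t ^ 2) := Real.log_nonneg (by linarith)
  refine ⟨?_, ⟨?_, ?_⟩, ?_, ?_⟩
  · rw [abs_le]
    constructor <;> linarith
  all_goals linarith

/-- the function `log (1 + s²) / 2` -/
private noncomputable def ff (s : ℝ) : ℝ := Real.log (1 + s ^ 2) / 2

private theorem ff_deriv : deriv ff = fun s => s / (1 + s ^ 2) := by
  funext s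
  have h : HasDerivAt (fun s : ℝ => 1 + s ^ 2) (2 * s) s := by
    have := ((hasDerivAt_pow 2 s).const_add 1)
    simpa using this
  have h2 := (h.log (by positivity : (1 + s ^ 2 : ℝ) ≠ 0)).div_const 2
  have : deriv ff s = 2 * s / (1 + s ^ 2) / 2 := h2.deriv
  rw [this]
  ring

private theorem ff_deriv2 (s : ℝ) : deriv (deriv ff) s = (1 - s ^ 2) / (1 + s ^ 2) ^ 2 := by
  rw [ff_deriv]
  have h : HasDerivAt (fun s : ℝ => 1 + s ^ 2) (2 * s) s := by
    have := ((hasDerivAt_pow 2 s).const_add 1)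
    simpa using this
  have h2 := (hasDerivAt_id s).div h (by positivity : (1 + s ^ 2 : ℝ) ≠ 0)
  have : deriv (fun s : ℝ => s / (1 + s ^ 2)) s =
      (1 * (1 + s ^ 2) - s * (2 * s)) / (1 + s ^ 2) ^ 2 := h2.deriv
  rw [this]
  congr 1
  ring

private theorem ff_smooth : ContDiff ℝ ∞ ff := by
  unfold ff
  exact ((contDiff_const.add (contDiff_id.pow 2)).log
    (fun s => by simp only [id]; positivity)).div_const 2

/-- determinant and positivity for the potential `log (1 + u²) / 2` -/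
private theorem hesA (hEUL : StEUL) (C : Cone) (hC : Good C) (z : Fin C.m → ℂ) (hz : z ∈ C.U) :
    Psd (hes (fun x => Real.log (1 + C.u x ^ 2) / 2) z) ∧
      (hes (fun x => Real.log (1 + C.u x ^ 2) / 2) z).det.re =
        2 * C.u z ^ C.m / (1 + C.u z ^ 2) ^ (C.m + 1) * ‖ev C.J z‖ ^ 2 := by
  obtain ⟨-, -, -, -, -, h⟩ := hEUL C hC z hz
  obtain ⟨h1, h2⟩ := h ff ff_smooth.contDiffOn
  obtain ⟨a, b, ha, hab⟩ := hC.ubd
  have u0 : 0 < C.u z := lt_of_lt_of_le (mul_pos ha (hC.Xpos z hz)) (hab z hz).1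
  have hm : 0 < C.m := by have := hC.hm; have := hC.hn; omega
  set s := C.u z with hs
  have e1 : deriv ff s = s / (1 + s ^ 2) := by rw [ff_deriv]
  have e2 : deriv ff s + s * deriv (deriv ff) s = 2 * s / (1 + s ^ 2) ^ 2 := by
    rw [e1, ff_deriv2]
    have : (1 + s ^ 2 : ℝ) ≠ 0 := by positivity
    field_simp
    ring
  refine ⟨h2 (by rw [e1]; positivity) (by rw [e2]; positivity), ?_⟩
  have h3 : (hes (fun x => ff (C.u x)) z).det.re =
      (deriv ff s) ^ (C.m - 1) * (deriv ff s + s * deriv (deriv ff) s) * ‖ev C.J z‖ ^ 2 := by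
    rw [h1, Complex.ofReal_re]
  have h4 : (hes (fun x => Real.log (1 + C.u x ^ 2) / 2) z) = hes (fun x => ff (C.u x)) z := rfl
  rw [h4, h3, e2, e1]
  congr 1
  obtain ⟨k, hk⟩ : ∃ k, C.m = k + 1 := ⟨C.m - 1, by omega⟩
  rw [hk, Nat.add_sub_cancel]
  have : (1 + s ^ 2 : ℝ) ≠ 0 := by positivity
  rw [div_pow]
  field_simp
  ring

/-- an integral over the half line -/
private theorem int1 (m : ℕ) (hm : 0 < m) :
    ∫⁻ s in Ioi (0 : ℝ), ENNReal.ofReal (2 / (1 + s ^ 2) ^ (m + 1)) *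
      ENNReal.ofReal (((m : ℝ) + m) / 1 * s ^ (((m : ℝ) + m) / 1 - 1)) = ENNReal.ofReal 2 := by
  obtain ⟨k, rfl⟩ : ∃ k, m = k + 1 := ⟨m - 1, by omega⟩
  have hder : ∀ x ∈ Ici (0 : ℝ), HasDerivAt (fun s : ℝ => 2 * (s ^ 2 / (1 + s ^ 2)) ^ (k + 1))
      (4 * (k + 1) * x ^ (2 * k + 1) / (1 + x ^ 2) ^ (k + 2)) x := by
    intro x _
    have h : HasDerivAt (fun s : ℝ => 1 + s ^ 2) (2 * x) x := by
      have := ((hasDerivAt_pow 2 x).const_add 1)
      simpa using this
    have h' : HasDerivAt (fun s : ℝ => s ^ 2) (2 * x) x := by simpa using hasDerivAt_pow 2 x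
    have hne : (1 + x ^ 2 : ℝ) ≠ 0 := by positivity
    have h2 := ((h'.div h hne).pow (k + 1)).const_mul 2
    refine h2.congr_deriv ?_
    simp only [Nat.add_sub_cancel]
    push_cast
    simp only [Pi.div_apply, div_pow]
    field_simp
    ring
  have hlim : Tendsto (fun s : ℝ => 2 * (s ^ 2 / (1 + s ^ 2)) ^ (k + 1)) atTop (𝓝 2) := by
    have h1 : Tendsto (fun s : ℝ => 1 - 1 / (1 + s ^ 2)) atTop (𝓝 (1 - 0)) := by
      refine tendsto_const_nhds.sub ?_
      refine tendsto_const_nhds.div_atTop ?_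
      exact tendsto_atTop_add_const_left _ _ (tendsto_pow_atTop two_ne_zero)
    have h2 : Tendsto (fun s : ℝ => s ^ 2 / (1 + s ^ 2)) atTop (𝓝 1) := by
      rw [sub_zero] at h1
      refine h1.congr fun s => ?_
      have : (1 + s ^ 2 : ℝ) ≠ 0 := by positivity
      field_simp
      ring
    have h3 := (h2.pow (k + 1)).const_mul 2
    simpa using h3
  have hpos : ∀ x ∈ Ioi (0 : ℝ), 0 ≤ 4 * (k + 1) * x ^ (2 * k + 1) / (1 + x ^ 2) ^ (k + 2) := by
    intro x hx
    have : 0 < x := hx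
    positivity
  have hI := integrableOn_Ioi_deriv_of_nonneg' hder hpos hlim
  have hV := integral_Ioi_of_hasDerivAt_of_nonneg' hder hpos hlim
  have hV' : ∫ x in Ioi (0 : ℝ), 4 * (k + 1) * x ^ (2 * k + 1) / (1 + x ^ 2) ^ (k + 2) = 2 := by
    rw [hV]
    simp
  have h9 := ofReal_integral_eq_lintegral_ofReal hI
    ((ae_restrict_iff' measurableSet_Ioi).2 (Eventually.of_forall hpos))
  rw [hV'] at h9
  rw [h9]
  refine setLIntegral_congr_fun measurableSet_Ioi fun s hs => ?_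
  have hs' : 0 < s := hs
  have e1 : s ^ ((((k + 1 : ℕ) : ℝ) + ((k + 1 : ℕ) : ℝ)) / 1 - 1) = s ^ (2 * k + 1) := by
    rw [← Real.rpow_natCast]
    congr 1
    push_cast
    ring
  rw [e1, ← ENNReal.ofReal_mul (by positivity)]
  congr 1
  push_cast
  ring

/-- an integral over the unit interval -/
private theorem int2 (m : ℕ) (hm : 0 < m) :
    ∫⁻ s in Ioi (0 : ℝ), (Iio (1 : ℝ)).indicator (fun s => ENNReal.ofReal ((s ^ m)⁻¹)) s *
      ENNReal.ofReal (((m : ℝ) + m) / 1 * s ^ (((m : ℝ) + m) / 1 - 1)) = ENNReal.ofReal 2 := by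
  obtain ⟨k, rfl⟩ : ∃ k, m = k + 1 := ⟨m - 1, by omega⟩
  have h1 : ∫ s in (0 : ℝ)..1, 2 * ((k : ℝ) + 1) * s ^ k = 2 := by
    rw [intervalIntegral.integral_const_mul, integral_pow]
    have : (k : ℝ) + 1 ≠ 0 := by positivity
    field_simp
    simp
  have h2 : ∫⁻ s in Ioc (0 : ℝ) 1, ENNReal.ofReal (2 * ((k : ℝ) + 1) * s ^ k) =
      ENNReal.ofReal 2 := by
    have hc : Continuous fun s : ℝ => 2 * ((k : ℝ) + 1) * s ^ k := by fun_prop
    have hi : Integrable (fun s : ℝ => 2 * ((k : ℝ) + 1) * s ^ k)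
        (volume.restrict (Ioc (0 : ℝ) 1)) :=
      (hc.integrableOn_Icc (a := 0) (b := 1)).mono_set Ioc_subset_Icc_self
    have hnn : ∀ s ∈ Ioc (0 : ℝ) 1, 0 ≤ 2 * ((k : ℝ) + 1) * s ^ k := fun s hs => by
      have : 0 < s := hs.1
      positivity
    have h9 := ofReal_integral_eq_lintegral_ofReal hi
      ((ae_restrict_iff' measurableSet_Ioc).2 (Eventually.of_forall hnn))
    rw [← intervalIntegral.integral_of_le zero_le_one, h1] at h9
    exact h9.symm
  rw [← h2, setLIntegral_congr Ioo_ae_eq_Ioc.symm, ← lintegral_indicator measurableSet_Ioi,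
    ← lintegral_indicator measurableSet_Ioo]
  refine lintegral_congr fun s => ?_
  by_cases h0 : 0 < s
  · by_cases hs1 : s < 1
    · rw [indicator_of_mem (show s ∈ Ioi (0 : ℝ) from h0), indicator_of_mem (show s ∈ Iio (1 : ℝ) from hs1),
        indicator_of_mem (show s ∈ Ioo (0 : ℝ) 1 from ⟨h0, hs1⟩)]
      have e1 : s ^ ((((k + 1 : ℕ) : ℝ) + ((k + 1 : ℕ) : ℝ)) / 1 - 1) = s ^ (2 * k + 1) := by
        rw [← Real.rpow_natCast]
        congr 1
        push_cast
        ring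
      rw [e1, ← ENNReal.ofReal_mul (by positivity)]
      congr 1
      push_cast
      have : s ≠ 0 := h0.ne'
      field_simp
      ring
    · rw [indicator_of_mem (show s ∈ Ioi (0 : ℝ) from h0),
        indicator_of_notMem (show s ∉ Iio (1 : ℝ) from hs1),
        indicator_of_notMem (show s ∉ Ioo (0 : ℝ) 1 from fun h => hs1 h.2), zero_mul]
  · rw [indicator_of_notMem (show s ∉ Ioi (0 : ℝ) from h0),
      indicator_of_notMem (show s ∉ Ioo (0 : ℝ) 1 from fun h => h0 h.1)]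

/-- Module VOL. -/
theorem hVOL (hCMP : StCMP) (hEUL : StEUL) (hSCA : StSCA) (hMLV : StMLV) : StVOL := by
  intro C hC
  have hU := isOpen_U C
  have hUm := hU.measurableSet
  obtain ⟨c₀, hc₀⟩ := bounds C hC
  obtain ⟨a, b, ha, hab⟩ := hC.ubd
  have u0 : ∀ z ∈ C.U, 0 < C.u z := fun z hz =>
    lt_of_lt_of_le (mul_pos ha (hC.Xpos z hz)) (hab z hz).1
  have hm : 0 < C.m := by have := hC.hm; have := hC.hn; omega
  obtain ⟨hBpsd, hBmass⟩ := hMLV C hC
  have hAs : ContDiffOn ℝ ∞ (fun z => Real.log (1 + C.u z ^ 2) / 2) C.U :=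
    ((contDiffOn_const.add (hC.usm.pow 2)).log (fun z _ => by positivity)).div_const 2
  have hBs : ContDiffOn ℝ ∞ (fun x => Real.log (1 + ∑ i, ‖ev (C.Y i) x‖ ^ 2) / 2) C.U := by
    have h1 : ContDiff ℝ ∞ (fun x : Fin C.m → ℂ => ∑ i, ‖ev (C.Y i) x‖ ^ 2) :=
      ContDiff.sum fun i _ => (ev_smooth (C.Y i)).norm_sq ℝ
    exact (((contDiff_const.add h1).log (fun x => by positivity)).div_const 2).contDiffOn
  -- the masses are equal
  have hmass : ∫⁻ z in C.U, ENNReal.ofReal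
      (hes (fun z => Real.log (1 + C.u z ^ 2) / 2) z).det.re =
      ENNReal.ofReal (C.rd * (Real.pi / 2) ^ C.m / C.m.factorial) := by
    rw [← hBmass]
    refine le_antisymm ?_ ?_
    · exact hCMP C hC _ _ c₀ hAs hBs (fun z hz => (hesA hEUL C hC z hz).1) (fun z _ => hBpsd z)
        (fun z hz => (hc₀ z hz).1) (fun z hz => (hc₀ z hz).2.2)
    · exact hCMP C hC _ _ c₀ hBs hAs (fun z _ => hBpsd z) (fun z hz => (hesA hEUL C hC z hz).1)
        (fun z hz => by rw [abs_sub_comm]; exact (hc₀ z hz).1) (fun z hz => (hc₀ z hz).2.1)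
  classical
  set V : ENNReal := ENNReal.ofReal (C.rd * (Real.pi / 2) ^ C.m / C.m.factorial) with hV
  set ψ : (Fin C.m → ℂ) → ℝ := C.U.piecewise C.u (fun _ => 0) with hψ
  have hψm : Measurable ψ :=
    ContinuousOn.measurable_piecewise hC.usm.continuousOn continuousOn_const hUm
  have hψU : ∀ z ∈ C.U, ψ z = C.u z := fun z hz => piecewise_eq_of_mem _ _ _ hz
  have hJ : Measurable fun z : Fin C.m → ℂ => ENNReal.ofReal (‖ev C.J z‖ ^ 2) :=
    (((ev_smooth C.J).continuous.norm.pow 2).measurable).ennreal_ofReal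
  have hset : {z | z ∈ C.U ∧ C.u z < 1} = {z | z ∈ C.U ∧ ψ z < 1} := by
    ext z
    constructor
    · rintro ⟨h1, h2⟩
      exact ⟨h1, by rw [hψU z h1]; exact h2⟩
    · rintro ⟨h1, h2⟩
      exact ⟨h1, by rw [← hψU z h1]; exact h2⟩
  have hsetm : MeasurableSet {z | z ∈ C.U ∧ ψ z < 1} := hUm.inter (measurableSet_lt hψm measurable_const)
  set g : (Fin C.m → ℂ) → ENNReal := fun z => ENNReal.ofReal (ψ z ^ C.m) with hg
  have hgm : Measurable g := (hψm.pow_const _).ennreal_ofReal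
  -- the first integral
  have hmass2 : ∫⁻ z in C.U, ENNReal.ofReal (2 / (1 + ψ z ^ 2) ^ (C.m + 1)) * g z ∂C.nu = V := by
    rw [← hmass]
    unfold Cone.nu
    rw [setLIntegral_withDensity_eq_setLIntegral_mul _ hJ _ hUm]
    · refine setLIntegral_congr_fun hUm fun z hz => ?_
      simp only [Pi.mul_apply, hg]
      rw [(hesA hEUL C hC z hz).2, hψU z hz]
      have := u0 z hz
      rw [← ENNReal.ofReal_mul (by positivity), ← ENNReal.ofReal_mul (by positivity)]
      congr 1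
      ring
    · refine Measurable.mul ?_ hgm
      refine Measurable.ennreal_ofReal ?_
      exact measurable_const.div ((measurable_const.add (hψm.pow_const 2)).pow_const _)
  -- finiteness
  have hfin : ∫⁻ z in {z | z ∈ C.U ∧ ψ z < 1}, g z ∂C.nu ≠ ⊤ := by
    have h1 : ∫⁻ z in {z | z ∈ C.U ∧ ψ z < 1}, g z ∂C.nu ≤
        ∫⁻ z in {z | z ∈ C.U ∧ ψ z < 1}, ENNReal.ofReal (2 ^ C.m) *
          (ENNReal.ofReal (2 / (1 + ψ z ^ 2) ^ (C.m + 1)) * g z) ∂C.nu := by
      refine setLIntegral_mono' hsetm fun z hz => ?_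
      have hz0 : 0 < ψ z := by rw [hψU z hz.1]; exact u0 z hz.1
      rw [← mul_assoc, ← ENNReal.ofReal_mul (by positivity)]
      refine le_mul_of_one_le_left bot_le ?_
      rw [← ENNReal.ofReal_one]
      refine ENNReal.ofReal_le_ofReal ?_
      have h2 : (1 + ψ z ^ 2) ^ (C.m + 1) ≤ 2 ^ (C.m + 1) := by
        refine pow_le_pow_left₀ (by positivity) ?_ _
        have : ψ z ^ 2 ≤ 1 := pow_le_one₀ hz0.le hz.2.le
        linarith
      rw [mul_div_assoc', ← pow_succ, le_div_iff₀ (by positivity), one_mul]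
      exact h2
    refine ne_top_of_le_ne_top ?_ h1
    rw [lintegral_const_mul]
    · refine ENNReal.mul_ne_top ENNReal.ofReal_ne_top ?_
      refine ne_top_of_le_ne_top ?_ (lintegral_mono_set (fun z hz => hz.1))
      rw [hmass2]
      exact ENNReal.ofReal_ne_top
    · refine Measurable.mul ?_ hgm
      refine Measurable.ennreal_ofReal ?_
      exact measurable_const.div ((measurable_const.add (hψm.pow_const 2)).pow_const _)
  have key := hSCA C hC 1 C.m one_pos (by positivity) ψ g hψm hgm (fun z hz => by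
    refine ⟨by rw [hψU z hz]; exact u0 z hz, fun c hc => ?_⟩
    have h1 : ψ (scl C.w c z) = ‖c‖ * ψ z := by
      rw [hψU z hz, hψU _ (hC.sclU c hc z hz), hC.uhom z hz c hc]
    refine ⟨by rw [h1, Real.rpow_one], ?_⟩
    simp only [hg]
    rw [h1, mul_pow, Real.rpow_natCast, ENNReal.ofReal_mul (by positivity)]) hfin
  set W : ENNReal := ∫⁻ z in {z | z ∈ C.U ∧ ψ z < 1}, g z ∂C.nu with hW
  -- the first test function
  have k1 := key (fun s => ENNReal.ofReal (2 / (1 + s ^ 2) ^ (C.m + 1)))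
    ((measurable_const.div ((measurable_const.add (measurable_id.pow_const 2)).pow_const
      _)).ennreal_ofReal)
  rw [hmass2, int1 C.m hm] at k1
  -- the second test function
  have k2 := key ((Iio (1 : ℝ)).indicator (fun s => ENNReal.ofReal ((s ^ C.m)⁻¹)))
    (((measurable_id.pow_const C.m).inv.ennreal_ofReal).indicator measurableSet_Iio)
  rw [int2 C.m hm, ← k1] at k2
  rw [← k2, hset, ← setLIntegral_one, ← lintegral_indicator hsetm, ← lintegral_indicator hUm]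
  refine lintegral_congr fun z => ?_
  by_cases hz : z ∈ C.U
  · have hz0 : 0 < ψ z := by rw [hψU z hz]; exact u0 z hz
    by_cases hz1 : ψ z < 1
    · rw [indicator_of_mem (show z ∈ {z | z ∈ C.U ∧ ψ z < 1} from ⟨hz, hz1⟩), indicator_of_mem hz,
        indicator_of_mem (show ψ z ∈ Iio (1 : ℝ) from hz1)]
      simp only [hg]
      rw [← ENNReal.ofReal_mul (by positivity), inv_mul_cancel₀ (by positivity),
        ENNReal.ofReal_one]
    · rw [indicator_of_notMem (show z ∉ {z | z ∈ C.U ∧ ψ z < 1} from fun h => hz1 h.2),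
        indicator_of_mem hz, indicator_of_notMem (show ψ z ∉ Iio (1 : ℝ) from hz1), zero_mul]
  · rw [indicator_of_notMem (show z ∉ {z | z ∈ C.U ∧ ψ z < 1} from fun h => hz h.1),
      indicator_of_notMem hz]

end Pool.Agent.Helper31.KP
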